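import Pool.Agent.H629.GC.Stm2

set_option autoImplicit false

open MeasureTheory ProbabilityTheory Set Filter
open scoped ENNReal Topology

/-!
# Logarithmic asymptotics of a tail (project GC of helper629, part T2)
-/

namespace Pool.Agent.H602.GC.T2

open Pool.Agent.H629.GC

theorem t_T2 : S_T2 := by
  intro Ω _ P hP M pc hpc hM0 hM hmom hlow
  have hpos : ∀ᶠ t : ℝ in atTop, 0 < P.real {ω | t < M ω} := by
    filter_upwards [hlow 1 one_pos, eventually_gt_atTop (0:ℝ)] with t ht ht0
    rw [measureReal_def, ENNReal.toReal_pos_iff]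
    refine ⟨lt_of_lt_of_le ?_ ht, measure_lt_top P _⟩
    rw [ENNReal.ofReal_pos]
    positivity
  rw [tendsto_order]
  constructor
  · intro a ha
    have he : 0 < (-pc - a) / 2 := by linarith
    filter_upwards [hlow _ he, eventually_gt_atTop (1:ℝ), hpos] with t ht ht1 htp
    have ht0 : 0 < t := by linarith
    have hlt : 0 < Real.log t := Real.log_pos ht1
    have h1 : t ^ (-(pc + (-pc - a) / 2)) ≤ P.real {ω | t < M ω} := by
      rw [measureReal_def]
      exact (ENNReal.ofReal_le_iff_le_toReal (measure_ne_top P _)).1 ht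
    have h2 := Real.log_le_log (by positivity) h1
    rw [Real.log_rpow ht0] at h2
    rw [lt_div_iff₀ hlt]
    refine lt_of_lt_of_le ?_ h2
    exact mul_lt_mul_of_pos_right (by linarith) hlt
  · intro a ha
    obtain ⟨p, hp0, hpp, hpa⟩ : ∃ p : ℝ, 0 < p ∧ p < pc ∧ 0 < a + p := by
      refine ⟨max (pc / 2) ((pc - a) / 2), ?_, ?_, ?_⟩
      · exact lt_of_lt_of_le (by linarith) (le_max_left _ _)
      · exact max_lt (by linarith) (by linarith)
      · have := le_max_right (pc / 2) ((pc - a) / 2)
        linarith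
    have hI := hmom p hp0 hpp
    set I : ℝ≥0∞ := ∫⁻ ω, ENNReal.ofReal (M ω ^ p) ∂P with hIdef
    obtain ⟨C, hC⟩ : ∃ C : ℝ, C = max I.toReal 1 := ⟨_, rfl⟩
    have hC1 : 1 ≤ C := by rw [hC]; exact le_max_right _ _
    have hCI : I.toReal ≤ C := by rw [hC]; exact le_max_left _ _
    have hlogC : Tendsto (fun t : ℝ => Real.log C / Real.log t) atTop (𝓝 0) :=
      Tendsto.div_atTop tendsto_const_nhds Real.tendsto_log_atTop
    have hev := (tendsto_order.1 hlogC).2 (a + p) hpa
    filter_upwards [hev, eventually_gt_atTop (1:ℝ), hpos] with t ht ht1 htp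
    have ht0 : 0 < t := by linarith
    have hlt : 0 < Real.log t := Real.log_pos ht1
    have htp0 : 0 < t ^ p := by positivity
    have hsub : {ω | t < M ω} ⊆ {ω | ENNReal.ofReal (t ^ p) ≤ ENNReal.ofReal (M ω ^ p)} := by
      intro ω hω
      have hω' : t < M ω := hω
      exact ENNReal.ofReal_le_ofReal (Real.rpow_le_rpow ht0.le hω'.le hp0.le)
    have hmk := mul_meas_ge_le_lintegral₀ (μ := P) (f := fun ω => ENNReal.ofReal (M ω ^ p))
      ((hM.pow_const p).ennreal_ofReal) (ENNReal.ofReal (t ^ p))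
    have h3 : ENNReal.ofReal (t ^ p) * P {ω | t < M ω} ≤ I :=
      (mul_le_mul_right (measure_mono hsub) _).trans hmk
    have h4 : t ^ p * P.real {ω | t < M ω} ≤ C := by
      refine le_trans ?_ hCI
      have h5 := (ENNReal.toReal_le_toReal (ENNReal.mul_ne_top ENNReal.ofReal_ne_top
        (measure_ne_top P _)) hI.ne).2 h3
      rwa [ENNReal.toReal_mul, ENNReal.toReal_ofReal htp0.le] at h5
    have h6 := Real.log_le_log (by positivity) h4
    rw [Real.log_mul htp0.ne' htp.ne', Real.log_rpow ht0] at h6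
    rw [div_lt_iff₀ hlt] at ht ⊢
    linarith

end Pool.Agent.H602.GC.T2
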